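import Mathlib
import Pool.Agent.H17.Runs

set_option autoImplicit false

namespace Pool.Agent.Results.MP_e99302_nt.LongRuns

def C (n : ℕ) : ℕ := if n % 2 = 0 then n / 2 else 3 * n + 1

theorem result (L : ℕ) : ∃ n H : ℕ, 1 ≤ n ∧
    ∀ i < L, IsLeast {k : ℕ | C^[k] (n + i) = 1} H := by
  obtain ⟨n, H, hn, h⟩ := Pool.Agent.H17.Runs.runs L
  refine ⟨n, H, hn, fun i hi => ⟨(h i hi).1, fun k hk => ?_⟩⟩
  by_contra hc
  exact (h i hi).2 k (not_le.1 hc) hk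

end Pool.Agent.Results.MP_e99302_nt.LongRuns
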